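import Pool.Agent.helper74.FD.SpecF

/-!
# Row fd:FLM (MP_07c750_an): the frequency localised pieces and their weights
-/

set_option autoImplicit false

open MeasureTheory Filter Set
open scoped ContDiff Topology ComplexConjugate

namespace Pool.Agent.FD

theorem FLM_nat (S : Finset ℕ) (h0 : 0 ∉ S) : ∑ i ∈ S, ((i : ℝ) ^ 2)⁻¹ ≤ 2 := by
  have h1 : S ⊆ Finset.Ioo 0 (S.sup id + 1) := by
    intro i hi
    rw [Finset.mem_Ioo]
    refine ⟨Nat.pos_of_ne_zero (fun h => h0 (h ▸ hi)), ?_⟩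
    have : i ≤ S.sup id := Finset.le_sup (f := id) hi
    omega
  calc ∑ i ∈ S, ((i : ℝ) ^ 2)⁻¹ ≤ ∑ i ∈ Finset.Ioo 0 (S.sup id + 1), ((i : ℝ) ^ 2)⁻¹ :=
        Finset.sum_le_sum_of_subset_of_nonneg h1 (fun i _ _ => by positivity)
    _ ≤ 2 / ((0 : ℕ) + 1) := sum_Ioo_inv_sq_le 0 _
    _ = 2 := by norm_num

theorem FLM_int (Q : Finset ℤ) (f : ℤ → ℕ) (hf : ∀ l ∈ Q, ∀ l' ∈ Q, f l = f l' → l = l') (h0 : ∀ l ∈ Q, f l ≠ 0) :
    ∑ l ∈ Q, ((f l : ℝ) ^ 2)⁻¹ ≤ 2 := by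
  have h1 : ∑ i ∈ Q.image f, ((i : ℝ) ^ 2)⁻¹ = ∑ l ∈ Q, ((f l : ℝ) ^ 2)⁻¹ := Finset.sum_image (fun l hl l' hl' h => hf l hl l' hl' h)
  rw [← h1]
  refine FLM_nat _ ?_
  intro h
  rw [Finset.mem_image] at h
  obtain ⟨l, hl, h2⟩ := h
  exact h0 l hl h2

theorem FLM_w (Q : Finset ℤ) (ζ : ℝ) : ∑ l ∈ Q, ((1 + |ζ - l|) ^ 2)⁻¹ ≤ 4 := by
  have hfl := Int.floor_le ζ
  have hlt := Int.lt_floor_add_one ζ
  set n : ℤ := ⌊ζ⌋ with hn
  rw [← Finset.sum_filter_add_sum_filter_not Q (fun l => l ≤ n)]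
  have h1 : ∑ l ∈ Q.filter (fun l => l ≤ n), ((1 + |ζ - l|) ^ 2)⁻¹ ≤ 2 := by
    refine le_trans (Finset.sum_le_sum (g := fun l => ((((n - l).toNat + 1 : ℕ) : ℝ) ^ 2)⁻¹) ?_) (FLM_int _ (fun l => (n - l).toNat + 1) ?_ ?_)
    · intro l hl
      rw [Finset.mem_filter] at hl
      have hl2 := hl.2
      have h2 : (((n - l).toNat : ℕ) : ℝ) = n - l := by
        have h3 : (((n - l).toNat : ℕ) : ℤ) = n - l := Int.toNat_of_nonneg (by omega)
        have h4 : ((((n - l).toNat : ℕ) : ℤ) : ℝ) = ((n - l : ℤ) : ℝ) := by rw [h3]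
        rw [Int.cast_natCast, Int.cast_sub] at h4
        exact h4
      have h5 : (l : ℝ) ≤ n := by exact_mod_cast hl2
      refine inv_anti₀ (by positivity) (pow_le_pow_left₀ (by positivity) ?_ 2)
      push_cast
      rw [h2, abs_of_nonneg (by linarith)]
      linarith
    · intro l hl l' hl' h
      rw [Finset.mem_filter] at hl hl'
      have := hl.2
      have := hl'.2
      omega
    · intro l _
      exact Nat.succ_ne_zero _
  have h1' : ∑ l ∈ Q.filter (fun l => ¬ l ≤ n), ((1 + |ζ - l|) ^ 2)⁻¹ ≤ 2 := by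
    refine le_trans (Finset.sum_le_sum (g := fun l => ((((l - n).toNat : ℕ) : ℝ) ^ 2)⁻¹) ?_) (FLM_int _ (fun l => (l - n).toNat) ?_ ?_)
    · intro l hl
      rw [Finset.mem_filter] at hl
      have hl2 := hl.2
      have h2 : (((l - n).toNat : ℕ) : ℝ) = l - n := by
        have h3 : (((l - n).toNat : ℕ) : ℤ) = l - n := Int.toNat_of_nonneg (by omega)
        have h4 : ((((l - n).toNat : ℕ) : ℤ) : ℝ) = ((l - n : ℤ) : ℝ) := by rw [h3]
        rw [Int.cast_natCast, Int.cast_sub] at h4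
        exact h4
      have h5 : (n : ℝ) + 1 ≤ l := by
        have : n + 1 ≤ l := by omega
        exact_mod_cast this
      refine inv_anti₀ ?_ (pow_le_pow_left₀ (by positivity) ?_ 2)
      · rw [h2]
        have : (0 : ℝ) < l - n := by linarith
        positivity
      rw [h2, abs_sub_comm, abs_of_nonneg (by linarith)]
      linarith
    · intro l hl l' hl' h
      rw [Finset.mem_filter] at hl hl'
      have := hl.2
      have := hl'.2
      have h' : (l - n).toNat = (l' - n).toNat := h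
      omega
    · intro l hl
      rw [Finset.mem_filter] at hl
      have := hl.2
      change (l - n).toNat ≠ 0
      omega
  linarith

theorem FLM_wint : Integrable (fun ξ : ℝ => ((1 + |ξ|) ^ 2)⁻¹) ∧ ∫ ξ : ℝ, ((1 + |ξ|) ^ 2)⁻¹ ≤ 4 := by
  have hc : Continuous fun ξ : ℝ => ((1 + |ξ|) ^ 2)⁻¹ := by
    refine Continuous.inv₀ (by fun_prop) (fun ξ => by positivity)
  have hle : ∀ ξ : ℝ, ((1 + |ξ|) ^ 2)⁻¹ ≤ (1 + ξ ^ 2)⁻¹ := by
    intro ξ
    refine inv_anti₀ (by positivity) ?_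
    have := sq_abs ξ
    nlinarith [abs_nonneg ξ]
  have hi : Integrable (fun ξ : ℝ => ((1 + |ξ|) ^ 2)⁻¹) := by
    refine integrable_inv_one_add_sq.mono' hc.aestronglyMeasurable (Filter.Eventually.of_forall fun ξ => ?_)
    rw [Real.norm_eq_abs, abs_of_nonneg (by positivity)]
    exact hle ξ
  refine ⟨hi, ?_⟩
  calc ∫ ξ : ℝ, ((1 + |ξ|) ^ 2)⁻¹ ≤ ∫ ξ : ℝ, (1 + ξ ^ 2)⁻¹ := integral_mono hi integrable_inv_one_add_sq hle
    _ = Real.pi := integral_univ_inv_one_add_sq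
    _ ≤ 4 := Real.pi_le_four

/-- Cauchy-Schwarz with the weight `(1 + |ξ|)^(-2)` -/
theorem FLM_cs (a : ℝ → ℝ) (h1 : Integrable fun ξ => a ξ * ((1 + |ξ|) ^ 2)⁻¹) (h2 : Integrable fun ξ => a ξ ^ 2 * ((1 + |ξ|) ^ 2)⁻¹) :
    (∫ ξ, a ξ * ((1 + |ξ|) ^ 2)⁻¹) ^ 2 ≤ 4 * ∫ ξ, a ξ ^ 2 * ((1 + |ξ|) ^ 2)⁻¹ := by
  obtain ⟨hw, hW⟩ := FLM_wint
  set B : ℝ := ∫ ξ, a ξ * ((1 + |ξ|) ^ 2)⁻¹ with hB
  set D : ℝ := ∫ ξ, a ξ ^ 2 * ((1 + |ξ|) ^ 2)⁻¹ with hD
  set W : ℝ := ∫ ξ : ℝ, ((1 + |ξ|) ^ 2)⁻¹ with hWd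
  have key : ∀ t : ℝ, 0 ≤ D - 2 * t * B + t ^ 2 * W := by
    intro t
    have e : D - 2 * t * B + t ^ 2 * W = ∫ ξ, (a ξ - t) ^ 2 * ((1 + |ξ|) ^ 2)⁻¹ := by
      have h5 : Integrable fun ξ => a ξ ^ 2 * ((1 + |ξ|) ^ 2)⁻¹ - 2 * t * (a ξ * ((1 + |ξ|) ^ 2)⁻¹) := h2.sub (h1.const_mul _)
      have h6 : Integrable fun ξ : ℝ => t ^ 2 * ((1 + |ξ|) ^ 2)⁻¹ := hw.const_mul _
      rw [hD, hB, hWd, ← integral_const_mul, ← integral_const_mul, ← integral_sub h2 (h1.const_mul _), ← integral_add h5 h6]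
      refine integral_congr_ae (Filter.Eventually.of_forall fun ξ => ?_)
      change a ξ ^ 2 * ((1 + |ξ|) ^ 2)⁻¹ - 2 * t * (a ξ * ((1 + |ξ|) ^ 2)⁻¹) + t ^ 2 * ((1 + |ξ|) ^ 2)⁻¹ = (a ξ - t) ^ 2 * ((1 + |ξ|) ^ 2)⁻¹
      ring
    rw [e]
    exact integral_nonneg fun ξ => by positivity
  have h3 := key (B / 4)
  nlinarith [sq_nonneg B]

theorem FLM_proof (hFT0 : FT0_stmt) (hFT1 : FT1_stmt) : FLM_stmt := by
  intro ψ C σ hψc hψ0 hψb X F p hF
  obtain ⟨g1, g2, g3, g4, g5, g6, g7, g8, g9⟩ := hFT1 X F hF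
  have hψs : HasCompactSupport fun x => (ψ x : ℂ) := by
    refine HasCompactSupport.intro (K := Icc (-|σ|) |σ|) isCompact_Icc ?_
    intro x hx
    have : σ ≤ |x| := by
      by_contra h
      rw [not_le] at h
      exact hx (abs_le.mp (h.le.trans (le_abs_self σ)))
    change ((ψ x : ℝ) : ℂ) = 0
    rw [hψ0 x this, Complex.ofReal_zero]
  have hψcc : Continuous fun x => (ψ x : ℂ) := Complex.continuous_ofReal.comp hψc
  have hψi : Integrable fun x => (ψ x : ℂ) := hψcc.integrable_of_hasCompactSupport hψs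
  have hftψ : Continuous (ft fun x => (ψ x : ℂ)) := (hFT0.1 _ hψi).1
  have hC : 0 ≤ C := by
    have := hψb 0
    rw [abs_zero, add_zero, one_pow, div_one] at this
    exact (norm_nonneg _).trans this
  have hmlc : ∀ l : ℤ, Continuous (ml F ψ l p) := by
    intro l
    unfold ml
    refine ((g1.comp (continuous_id.add continuous_const)).mul hftψ).mul ?_
    fun_prop
  have hshs : ∀ l : ℤ, HasCompactSupport fun ξ => ft F (ξ + l) := fun l =>
    g2.comp_homeomorph (Homeomorph.addRight (l : ℝ))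
  have hmls : ∀ l : ℤ, HasCompactSupport (ml F ψ l p) := by
    intro l
    unfold ml
    exact ((hshs l).mul_right).mul_right
  refine ⟨fun l => ⟨hmlc l, hmls l, ?_, ?_⟩, ?_⟩
  · intro ξ h
    by_contra h'
    refine h ?_
    unfold ml
    rw [hF.sp _ h', zero_mul, zero_mul]
  · intro s
    -- Fubini
    have hFub : Fl F ψ l (s + p) = ∫ ζ, ft F ζ * Complex.exp (((2 * Real.pi * (s + p) * ζ : ℝ) : ℂ) * Complex.I) *
        ft (fun x => (ψ x : ℂ)) (ζ - l) := by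
      have e1 : Fl F ψ l (s + p) = ∫ y : ℝ, ∫ ζ : ℝ, (ft F ζ * Complex.exp (((2 * Real.pi * (s + p) * ζ : ℝ) : ℂ) * Complex.I)) *
          ((ψ y : ℂ) * Complex.exp (((-(2 * Real.pi * y * (ζ - l)) : ℝ) : ℂ) * Complex.I)) := by
        unfold Fl
        refine integral_congr_ae (Filter.Eventually.of_forall fun y => ?_)
        change F (s + p - y) * (ψ y : ℂ) * Complex.exp (((2 * Real.pi * l * y : ℝ) : ℂ) * Complex.I) = _
        rw [g4 (s + p - y), mul_assoc]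
        unfold fti
        rw [← integral_mul_const]
        refine integral_congr_ae (Filter.Eventually.of_forall fun ζ => ?_)
        change ft F ζ * Complex.exp (((2 * Real.pi * (s + p - y) * ζ : ℝ) : ℂ) * Complex.I) *
          ((ψ y : ℂ) * Complex.exp (((2 * Real.pi * l * y : ℝ) : ℂ) * Complex.I)) =
          (ft F ζ * Complex.exp (((2 * Real.pi * (s + p) * ζ : ℝ) : ℂ) * Complex.I)) *
          ((ψ y : ℂ) * Complex.exp (((-(2 * Real.pi * y * (ζ - l)) : ℝ) : ℂ) * Complex.I))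
        have e2 : Complex.exp (((2 * Real.pi * (s + p - y) * ζ : ℝ) : ℂ) * Complex.I) * Complex.exp (((2 * Real.pi * l * y : ℝ) : ℂ) * Complex.I) =
            Complex.exp (((2 * Real.pi * (s + p) * ζ : ℝ) : ℂ) * Complex.I) * Complex.exp (((-(2 * Real.pi * y * (ζ - l)) : ℝ) : ℂ) * Complex.I) := by
          rw [← Complex.exp_add, ← Complex.exp_add]
          congr 1
          push_cast
          ring
        calc _ = ft F ζ * (ψ y : ℂ) * (Complex.exp (((2 * Real.pi * (s + p - y) * ζ : ℝ) : ℂ) * Complex.I) * Complex.exp (((2 * Real.pi * l * y : ℝ) : ℂ) * Complex.I)) := by ring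
          _ = _ := by
            rw [e2]
            ring
      rw [e1, integral_integral_swap]
      · refine integral_congr_ae (Filter.Eventually.of_forall fun ζ => ?_)
        change ∫ y : ℝ, (ft F ζ * Complex.exp (((2 * Real.pi * (s + p) * ζ : ℝ) : ℂ) * Complex.I)) *
          ((ψ y : ℂ) * Complex.exp (((-(2 * Real.pi * y * (ζ - l)) : ℝ) : ℂ) * Complex.I)) = _
        rw [integral_const_mul]
        rfl
      · have hm : Integrable (fun q : ℝ × ℝ => ‖(ψ q.1 : ℂ)‖ * ‖ft F q.2‖) (volume.prod volume) := hψi.norm.mul_prod g3.norm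
        refine hm.mono' ?_ (Filter.Eventually.of_forall fun q => ?_)
        · refine Continuous.aestronglyMeasurable ?_
          have c1 : Continuous fun q : ℝ × ℝ => ft F q.2 := g1.comp continuous_snd
          have c2 : Continuous fun q : ℝ × ℝ => (ψ q.1 : ℂ) := hψcc.comp continuous_fst
          change Continuous fun q : ℝ × ℝ => (ft F q.2 * Complex.exp (((2 * Real.pi * (s + p) * q.2 : ℝ) : ℂ) * Complex.I)) *
            ((ψ q.1 : ℂ) * Complex.exp (((-(2 * Real.pi * q.1 * (q.2 - l)) : ℝ) : ℂ) * Complex.I))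
          fun_prop
        · change ‖(ft F q.2 * Complex.exp (((2 * Real.pi * (s + p) * q.2 : ℝ) : ℂ) * Complex.I)) *
            ((ψ q.1 : ℂ) * Complex.exp (((-(2 * Real.pi * q.1 * (q.2 - l)) : ℝ) : ℂ) * Complex.I))‖ ≤ _
          rw [norm_mul, norm_mul, norm_mul, Complex.norm_exp_ofReal_mul_I, Complex.norm_exp_ofReal_mul_I, mul_one, mul_one, mul_comm]
    have hsub : Fl F ψ l (s + p) = ∫ ξ, ft F (ξ + l) * Complex.exp (((2 * Real.pi * (s + p) * (ξ + l) : ℝ) : ℂ) * Complex.I) *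
        ft (fun x => (ψ x : ℂ)) ξ := by
      rw [hFub, ← integral_add_right_eq_self (fun ζ => ft F ζ * Complex.exp (((2 * Real.pi * (s + p) * ζ : ℝ) : ℂ) * Complex.I) *
        ft (fun x => (ψ x : ℂ)) (ζ - l)) (l : ℝ)]
      refine integral_congr_ae (Filter.Eventually.of_forall fun ξ => ?_)
      change ft F (ξ + l) * Complex.exp (((2 * Real.pi * (s + p) * (ξ + l) : ℝ) : ℂ) * Complex.I) * ft (fun x => (ψ x : ℂ)) (ξ + l - l) = _
      rw [add_sub_cancel_right]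
    have hfin : Fl F ψ l (s + p) = Complex.exp (((2 * Real.pi * s * l : ℝ) : ℂ) * Complex.I) * fti (ml F ψ l p) s := by
      rw [hsub]
      unfold fti ml
      rw [← integral_const_mul]
      refine integral_congr_ae (Filter.Eventually.of_forall fun ξ => ?_)
      change ft F (ξ + l) * Complex.exp (((2 * Real.pi * (s + p) * (ξ + l) : ℝ) : ℂ) * Complex.I) * ft (fun x => (ψ x : ℂ)) ξ =
        Complex.exp (((2 * Real.pi * s * l : ℝ) : ℂ) * Complex.I) *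
          (ft F (ξ + l) * ft (fun x => (ψ x : ℂ)) ξ * Complex.exp (((2 * Real.pi * p * (ξ + l) : ℝ) : ℂ) * Complex.I) *
            Complex.exp (((2 * Real.pi * s * ξ : ℝ) : ℂ) * Complex.I))
      have e2 : Complex.exp (((2 * Real.pi * (s + p) * (ξ + l) : ℝ) : ℂ) * Complex.I) =
          Complex.exp (((2 * Real.pi * s * l : ℝ) : ℂ) * Complex.I) * Complex.exp (((2 * Real.pi * p * (ξ + l) : ℝ) : ℂ) * Complex.I) *
            Complex.exp (((2 * Real.pi * s * ξ : ℝ) : ℂ) * Complex.I) := by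
        rw [← Complex.exp_add, ← Complex.exp_add]
        congr 1
        push_cast
        ring
      rw [e2]
      ring
    rw [hfin, norm_mul, Complex.norm_exp_ofReal_mul_I, one_mul]
  · intro Q
    have hwc : Continuous fun ξ : ℝ => ((1 + |ξ|) ^ 2)⁻¹ := Continuous.inv₀ (by fun_prop) (fun ξ => by positivity)
    have hac : ∀ l : ℤ, Continuous fun ξ : ℝ => ‖ft F (ξ + l)‖ := fun l => (g1.comp (continuous_id.add continuous_const)).norm
    have has : ∀ l : ℤ, HasCompactSupport fun ξ : ℝ => ‖ft F (ξ + l)‖ := fun l => (hshs l).norm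
    have i1 : ∀ l : ℤ, Integrable fun ξ : ℝ => ‖ft F (ξ + l)‖ * ((1 + |ξ|) ^ 2)⁻¹ := fun l =>
      ((hac l).mul hwc).integrable_of_hasCompactSupport (has l).mul_right
    have i2 : ∀ l : ℤ, Integrable fun ξ : ℝ => ‖ft F (ξ + l)‖ ^ 2 * ((1 + |ξ|) ^ 2)⁻¹ := by
      intro l
      refine (((hac l).pow 2).mul hwc).integrable_of_hasCompactSupport (HasCompactSupport.mul_right ?_)
      have : (fun ξ : ℝ => ‖ft F (ξ + l)‖ ^ 2) = fun ξ : ℝ => ‖ft F (ξ + l)‖ * ‖ft F (ξ + l)‖ := by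
        funext ξ
        ring
      change HasCompactSupport (fun ξ : ℝ => ‖ft F (ξ + l)‖ ^ 2)
      rw [this]
      exact (has l).mul_right
    have hB : ∀ l : ℤ, (∫ ξ, ‖ml F ψ l p ξ‖ * (1 + |ξ|)) ^ 2 ≤ 4 * C ^ 2 * ∫ ζ, ‖ft F ζ‖ ^ 2 * ((1 + |ζ - l|) ^ 2)⁻¹ := by
      intro l
      have h1 : ∫ ξ, ‖ml F ψ l p ξ‖ * (1 + |ξ|) ≤ C * ∫ ξ, ‖ft F (ξ + l)‖ * ((1 + |ξ|) ^ 2)⁻¹ := by
        rw [← integral_const_mul]
        refine integral_mono_of_nonneg (Filter.Eventually.of_forall fun ξ => by positivity) ((i1 l).const_mul C)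
          (Filter.Eventually.of_forall fun ξ => ?_)
        change ‖ml F ψ l p ξ‖ * (1 + |ξ|) ≤ C * (‖ft F (ξ + l)‖ * ((1 + |ξ|) ^ 2)⁻¹)
        unfold ml
        rw [norm_mul, norm_mul, Complex.norm_exp_ofReal_mul_I, mul_one, mul_assoc]
        have h2 : ‖ft (fun x => (ψ x : ℂ)) ξ‖ * (1 + |ξ|) ≤ C * ((1 + |ξ|) ^ 2)⁻¹ := by
          have hp : 0 < 1 + |ξ| := by positivity
          calc ‖ft (fun x => (ψ x : ℂ)) ξ‖ * (1 + |ξ|) ≤ C / (1 + |ξ|) ^ 3 * (1 + |ξ|) :=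
                mul_le_mul_of_nonneg_right (hψb ξ) hp.le
            _ = C * ((1 + |ξ|) ^ 2)⁻¹ := by
                field_simp
        calc ‖ft F (ξ + l)‖ * (‖ft (fun x => (ψ x : ℂ)) ξ‖ * (1 + |ξ|)) ≤ ‖ft F (ξ + l)‖ * (C * ((1 + |ξ|) ^ 2)⁻¹) :=
              mul_le_mul_of_nonneg_left h2 (norm_nonneg _)
          _ = _ := by ring
      have h0 : 0 ≤ ∫ ξ, ‖ml F ψ l p ξ‖ * (1 + |ξ|) := integral_nonneg fun ξ => by positivity
      have h3 := FLM_cs (fun ξ => ‖ft F (ξ + l)‖) (i1 l) (i2 l)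
      have h4 : ∫ ξ, ‖ft F (ξ + l)‖ ^ 2 * ((1 + |ξ|) ^ 2)⁻¹ = ∫ ζ, ‖ft F ζ‖ ^ 2 * ((1 + |ζ - l|) ^ 2)⁻¹ := by
        rw [← integral_add_right_eq_self (fun ζ : ℝ => ‖ft F ζ‖ ^ 2 * ((1 + |ζ - l|) ^ 2)⁻¹) (l : ℝ)]
        refine integral_congr_ae (Filter.Eventually.of_forall fun ξ => ?_)
        change ‖ft F (ξ + l)‖ ^ 2 * ((1 + |ξ|) ^ 2)⁻¹ = ‖ft F (ξ + l)‖ ^ 2 * ((1 + |ξ + l - l|) ^ 2)⁻¹
        rw [add_sub_cancel_right]
      rw [← h4]
      calc (∫ ξ, ‖ml F ψ l p ξ‖ * (1 + |ξ|)) ^ 2 ≤ (C * ∫ ξ, ‖ft F (ξ + l)‖ * ((1 + |ξ|) ^ 2)⁻¹) ^ 2 := pow_le_pow_left₀ h0 h1 2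
        _ = C ^ 2 * (∫ ξ, ‖ft F (ξ + l)‖ * ((1 + |ξ|) ^ 2)⁻¹) ^ 2 := by ring
        _ ≤ C ^ 2 * (4 * ∫ ξ, ‖ft F (ξ + l)‖ ^ 2 * ((1 + |ξ|) ^ 2)⁻¹) := mul_le_mul_of_nonneg_left h3 (by positivity)
        _ = _ := by ring
    have i3 : ∀ l : ℤ, Integrable fun ζ : ℝ => ‖ft F ζ‖ ^ 2 * ((1 + |ζ - l|) ^ 2)⁻¹ := by
      intro l
      refine g8.mono' ?_ (Filter.Eventually.of_forall fun ζ => ?_)
      · refine Continuous.aestronglyMeasurable ?_
        refine (g1.norm.pow 2).mul ?_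
        exact Continuous.inv₀ (by fun_prop) (fun ξ => by positivity)
      · rw [Real.norm_eq_abs, abs_of_nonneg (by positivity)]
        have : ((1 + |ζ - l|) ^ 2)⁻¹ ≤ 1 := by
          refine inv_le_one_of_one_le₀ (one_le_pow₀ ?_)
          linarith [abs_nonneg (ζ - l)]
        calc ‖ft F ζ‖ ^ 2 * ((1 + |ζ - l|) ^ 2)⁻¹ ≤ ‖ft F ζ‖ ^ 2 * 1 := mul_le_mul_of_nonneg_left this (by positivity)
          _ = _ := mul_one _
    calc ∑ l ∈ Q, (∫ ξ, ‖ml F ψ l p ξ‖ * (1 + |ξ|)) ^ 2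
        ≤ ∑ l ∈ Q, 4 * C ^ 2 * ∫ ζ, ‖ft F ζ‖ ^ 2 * ((1 + |ζ - l|) ^ 2)⁻¹ := Finset.sum_le_sum fun l _ => hB l
      _ = 4 * C ^ 2 * ∫ ζ, ∑ l ∈ Q, ‖ft F ζ‖ ^ 2 * ((1 + |ζ - l|) ^ 2)⁻¹ := by
          rw [← Finset.mul_sum, integral_finset_sum _ (fun l _ => i3 l)]
      _ ≤ 4 * C ^ 2 * ∫ ζ, 4 * ‖ft F ζ‖ ^ 2 := by
          refine mul_le_mul_of_nonneg_left ?_ (by positivity)
          refine integral_mono (integrable_finset_sum _ fun l _ => i3 l) (g8.const_mul 4) (fun ζ => ?_)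
          change ∑ l ∈ Q, ‖ft F ζ‖ ^ 2 * ((1 + |ζ - l|) ^ 2)⁻¹ ≤ 4 * ‖ft F ζ‖ ^ 2
          rw [← Finset.mul_sum, mul_comm]
          exact mul_le_mul_of_nonneg_right (FLM_w Q ζ) (by positivity)
      _ = 16 * C ^ 2 * ∫ x, ‖F x‖ ^ 2 := by
          rw [integral_const_mul, g9]
          ring

end Pool.Agent.FD
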